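import Pool.Agent.H24R2.JP.Spec

set_option autoImplicit false

/-!
# Zeros of the derivatives of the Riemann xi function: an exponential bound for the exceptional zeros

Every task is one `Prop` below (`S...`); a task proves it from earlier ones given as hypotheses.
Throughout `XX z = 8 ξ(1/2 + z)` (an entire function, even and real on the axes), so the critical line is
the imaginary axis.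
-/

namespace Pool.Agent.H24R2.DZ

open Complex Filter Topology MeasureTheory Set
open Pool.Agent.H24R2.JP (XX HH Om)

/-! ## A. Mean squares of `ζ M` by Mellin-Parseval on a rotated ray -/

/-- The Dirichlet polynomial `∑_{h ≤ y} b_h h^{-s}`. -/
noncomputable def MM (y : ℕ) (b : ℕ → ℂ) (s : ℂ) : ℂ := ∑ h ∈ Finset.Icc 1 y, b h * (h : ℂ) ^ (-s)

/-- `c_n = ∑_{h | n} b_h`. -/
noncomputable def cc (b : ℕ → ℂ) (n : ℕ) : ℂ := ∑ h ∈ n.divisors, b h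

/-- `r_k = ∑_{h ≤ y, k | h} b_h / h`. -/
noncomputable def rr (y : ℕ) (b : ℕ → ℂ) (k : ℕ) : ℂ :=
  ∑ h ∈ (Finset.Icc 1 y).filter (fun h => k ∣ h), b h / h

/-- `1 / (e^z - 1) - 1 / z`. -/
noncomputable def ff (z : ℂ) : ℂ := 1 / (cexp z - 1) - 1 / z

/-- The ray with argument `π/2 - δ`; `ray δ x = x sin δ + i x cos δ`. -/
noncomputable def ray (δ x : ℝ) : ℂ := (x : ℂ) * cexp (I * ((Real.pi / 2 - δ : ℝ) : ℂ))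

noncomputable def GF (y : ℕ) (b : ℕ → ℂ) (z : ℂ) : ℂ :=
  (∑ h ∈ Finset.Icc 1 y, b h * ff (h * z)) - b 1 * cexp (-z)

/-- Mellin transform of `ff` on the ray. -/
def SMel : Prop := ∀ (δ σ t : ℝ), 0 < δ → δ < Real.pi / 2 → 0 < σ → σ < 1 →
  IntegrableOn (fun x : ℝ => ff (ray δ x) * (x : ℂ) ^ ((σ : ℂ) + t * I - 1)) (Ioi 0) ∧
  ∫ x in Ioi (0 : ℝ), ff (ray δ x) * (x : ℂ) ^ ((σ : ℂ) + t * I - 1) =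
    cexp (-(I * ((Real.pi / 2 - δ : ℝ) : ℂ)) * ((σ : ℂ) + t * I)) * Complex.Gamma ((σ : ℂ) + t * I) *
      riemannZeta ((σ : ℂ) + t * I)

/-- Mellin transform of `GF` on the ray. -/
def SMelG : Prop := ∀ (δ σ t : ℝ) (y : ℕ) (b : ℕ → ℂ), 0 < δ → δ < Real.pi / 2 → 0 < σ → σ < 1 →
  IntegrableOn (fun x : ℝ => GF y b (ray δ x) * (x : ℂ) ^ ((σ : ℂ) + t * I - 1)) (Ioi 0) ∧
  ∫ x in Ioi (0 : ℝ), GF y b (ray δ x) * (x : ℂ) ^ ((σ : ℂ) + t * I - 1) =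
    cexp (-(I * ((Real.pi / 2 - δ : ℝ) : ℂ)) * ((σ : ℂ) + t * I)) * Complex.Gamma ((σ : ℂ) + t * I) *
      (riemannZeta ((σ : ℂ) + t * I) * MM y b ((σ : ℂ) + t * I) - b 1)

/-- Bessel-Parseval for the Mellin transform. -/
def SPlan : Prop := ∀ (F : ℝ → ℂ) (C σ A B : ℝ), ContinuousOn F (Ioi 0) → 0 < σ → σ < 1 →
  (∀ x : ℝ, 0 < x → ‖F x‖ ≤ C) → (∀ x : ℝ, 0 < x → ‖F x‖ ≤ C / x) → A ≤ B →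
  ∫ t in A..B, ‖∫ x in Ioi (0 : ℝ), F x * (x : ℂ) ^ ((σ : ℂ) + t * I - 1)‖ ^ 2 ≤
    2 * Real.pi * ∫ x in Ioi (0 : ℝ), ‖F x‖ ^ 2 * x ^ (2 * σ - 1)

/-- Lower bound for the Gamma factor. -/
def SGamLow : Prop := ∃ c T0 : ℝ, 0 < c ∧ 1 ≤ T0 ∧ ∀ T t σ : ℝ, T0 ≤ T → T / 4 ≤ t → t ≤ 4 * T →
  1 / 2 ≤ σ → σ ≤ 9 / 10 →
  c * T ^ (2 * σ - 1) ≤
    ‖cexp (-(I * ((Real.pi / 2 - 1 / T : ℝ) : ℂ)) * ((σ : ℂ) + t * I)) * Complex.Gamma ((σ : ℂ) + t * I)‖ ^ 2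

/-- The range `x ≥ 2π / cos δ`: almost orthogonality. -/
def SBig : Prop := ∃ C : ℝ, 0 < C ∧ ∀ (δ σ B : ℝ) (c : ℕ → ℂ), 0 < δ → δ ≤ 1 / 10 → 1 / 2 ≤ σ →
  σ ≤ 9 / 10 → (∀ n, ‖c n‖ ≤ B) → c 0 = 0 →
  ∫ x in Ioi (2 * Real.pi / Real.cos δ), ‖∑' n : ℕ, c n * cexp (-(n * ray δ x))‖ ^ 2 * x ^ (2 * σ - 1) ≤
    C * ∑' n : ℕ, ‖c n‖ ^ 2 * (n * δ) ^ (-(2 * σ)) * Real.exp (-(n * δ))

/-- The series for `GF`. -/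
def SRep : Prop := ∀ (y : ℕ) (b : ℕ → ℂ) (z : ℂ), (∀ h, y < h → b h = 0) → 1 ≤ y → 0 < z.re →
  GF y b z = (∑' n : ℕ, (if n ≤ 1 then 0 else cc b n) * cexp (-(n * z))) - rr y b 1 / z

/-- The range `x ≤ 2π / cos δ`: poles at `2 π i a / k`. -/
def SSmall : Prop := ∃ C : ℝ, 0 < C ∧ ∀ (δ σ : ℝ) (y : ℕ) (b : ℕ → ℂ), 0 < δ → 1 ≤ y →
  δ * (y : ℝ) ^ 10 ≤ 1 / 100 → 1 / 2 ≤ σ → σ ≤ 9 / 10 →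
  ∫ x in Ioc 0 (2 * Real.pi / Real.cos δ), ‖GF y b (ray δ x)‖ ^ 2 * x ^ (2 * σ - 1) ≤
    C * (δ⁻¹ * (∑ k ∈ Finset.Icc 1 y, (k : ℝ) * (1 + Real.log k) * ‖rr y b k‖ ^ 2) +
      (y : ℝ) ^ 20 * ∑ h ∈ Finset.Icc 1 y, ‖b h‖ ^ 2)

/-- The mean square of `ζ M - b_1`. -/
def SAN : Prop := ∃ C T0 : ℝ, 0 < C ∧ 1 ≤ T0 ∧ ∀ (T σ : ℝ) (y : ℕ) (b : ℕ → ℂ), T0 ≤ T → 1 ≤ y →
  (y : ℝ) ^ 100 ≤ T → 1 / 2 ≤ σ → σ ≤ 9 / 10 → (∀ h, y < h → b h = 0) →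
  ∫ t in (T / 4)..(4 * T), ‖riemannZeta ((σ : ℂ) + t * I) * MM y b ((σ : ℂ) + t * I) - b 1‖ ^ 2 ≤
    C * T * ((∑' n : ℕ, if n ≤ 1 then 0 else ‖cc b n‖ ^ 2 * (n : ℝ) ^ (-(2 * σ)) * Real.exp (-(n / T))) +
      T ^ (1 - 2 * σ) * (∑ k ∈ Finset.Icc 1 y, (k : ℝ) * (1 + Real.log k) * ‖rr y b k‖ ^ 2) +
      T ^ (-(1 / 2) : ℝ) * ∑ h ∈ Finset.Icc 1 y, ‖b h‖ ^ 2)

/-! ## B. The mollifier -/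

/-- A smooth cut-off: `1` for `u ≤ 1/2`, `0` for `u ≥ 1`. -/
noncomputable def ph (u : ℝ) : ℝ := Real.smoothTransition (2 - 2 * u)

/-- `μ(h) φ(log h / (θ L))`. -/
noncomputable def mo (θ L : ℝ) (h : ℕ) : ℝ :=
  (ArithmeticFunction.moebius h : ℝ) * ph (Real.log h / (θ * L))

/-- `μ(h) φ(log h / (θ L)) h^{-β}`. -/
noncomputable def bb (θ L : ℝ) (β : ℂ) (h : ℕ) : ℂ := (mo θ L h : ℂ) * (h : ℂ) ^ (-β)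

/-- Fourier representation of `φ(u/θ) e^{-zu}` on `u ≥ 0`. -/
def SFour : Prop := ∀ θ : ℝ, 0 < θ → θ ≤ 1 → ∃ C : ℝ, 0 < C ∧ ∀ z : ℂ, ∃ w : ℝ → ℂ, Continuous w ∧
  (∀ τ, ‖w τ‖ ≤ C * (1 + ‖z‖) ^ 10 * Real.exp (θ * ‖z‖) * (1 + |τ|) ^ (-10 : ℝ)) ∧
  ∀ u : ℝ, 0 ≤ u → ((ph (u / θ) : ℝ) : ℂ) * cexp (-(z * u)) = ∫ τ : ℝ, w τ * cexp (-((1 + I * τ) * u))

def SCsum : Prop := ∃ C : ℝ, 0 < C ∧ ∀ (L τ : ℝ) (N : ℕ), 1 ≤ L →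
  ∑ n ∈ Finset.Icc 1 N, (n : ℝ) ^ (-(1 + 1 / L)) *
    ∏ p ∈ n.primeFactors, ‖1 - (p : ℂ) ^ (-((1 + I * τ) / L))‖ ^ 2 ≤ C * (1 + |τ|) ^ 8

def SInvZ : Prop := ∃ C : ℝ, 0 < C ∧ ∀ (L τ : ℝ) (k : ℕ), 1 ≤ L → 1 ≤ k →
  ‖∑' m : ℕ, if m.Coprime k then (ArithmeticFunction.moebius m : ℂ) * (m : ℂ) ^ (-(1 + (1 + I * τ) / L))
    else 0‖ ≤ C * (k / (Nat.totient k : ℝ)) * (1 + |τ|) ^ 2 / L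

def SMo : Prop := ∀ θ : ℝ, 0 < θ → θ ≤ 1 → ∃ C : ℝ, 0 < C ∧ ∀ (L : ℝ) (β : ℂ), 1 ≤ L →
  (∀ N : ℕ, ∑ n ∈ Finset.Icc 1 N, (n : ℝ) ^ (-(1 + 1 / L)) * ‖cc (bb θ L β) n‖ ^ 2 ≤
    C * (1 + L * ‖β‖) ^ 20 * Real.exp (2 * θ * L * ‖β‖)) ∧
  (∀ y k : ℕ, Real.exp (θ * L) ≤ y → 1 ≤ k →
    ‖rr y (bb θ L β) k‖ ≤ C * (1 + L * ‖β‖) ^ 10 * Real.exp (θ * L * ‖β‖) / (L * (Nat.totient k : ℝ)))

def SPhi : Prop := ∃ C : ℝ, 0 < C ∧ ∀ y : ℕ, 1 ≤ y →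
  ∑ k ∈ Finset.Icc 1 y, (k : ℝ) * (1 + Real.log k) / (Nat.totient k : ℝ) ^ 2 ≤ C * (1 + Real.log y) ^ 2

/-- The length of the mollifier. -/
noncomputable def yy (θ T : ℝ) : ℕ := ⌈T ^ θ⌉₊

/-- The mollifier at height `T`. -/
noncomputable def mT (θ T : ℝ) (s : ℂ) : ℂ := MM (yy θ T) (bb θ (Real.log T) 0) s

def SMV1 : Prop := ∀ θ : ℝ, 0 < θ → θ ≤ 1 / 200 → ∃ C T0 : ℝ, 0 < C ∧ 2 ≤ T0 ∧ ∀ T σ : ℝ, T0 ≤ T →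
  1 / 2 ≤ σ → σ ≤ 9 / 10 →
  ∫ t in (T / 4)..(4 * T), ‖riemannZeta ((σ : ℂ) + t * I) * mT θ T ((σ : ℂ) + t * I) - 1‖ ^ 2 ≤
    C * T * Real.exp (-(θ * (σ - 1 / 2) * Real.log T))

def SMV2 : Prop := ∀ θ : ℝ, 0 < θ → θ ≤ 1 / 200 → ∃ C T0 : ℝ, 0 < C ∧ 2 ≤ T0 ∧ ∀ (T σ : ℝ) (β : ℂ), T0 ≤ T →
  1 / 2 ≤ σ → σ ≤ 9 / 10 → ‖β‖ ≤ 1 →
  ∫ t in (T / 4)..(4 * T), ‖riemannZeta ((σ : ℂ) + t * I) * mT θ T ((σ : ℂ) + t * I + β)‖ ^ 2 ≤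
    C * T * (1 + Real.log T * ‖β‖) ^ 20 * Real.exp (2 * θ * Real.log T * ‖β‖)

/-! ## C. Good points -/

/-- The radius belonging to the scale `a`: `a / ((log T) / 2)`. -/
noncomputable def ra (T a : ℝ) : ℝ := a / (Real.log T / 2)

/-- `t0` is good at scale `a`. -/
def Gd (θ η ε T a t0 : ℝ) : Prop :=
  (∫ x in (ra T a / 4000)..(30 * ra T a), ∫ y in (-(30 * ra T a))..(30 * ra T a),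
    ‖riemannZeta (1 / 2 + x + (t0 + y) * I) * mT θ T (1 / 2 + x + (t0 + y) * I) - 1‖ ^ 2) ≤
      η * ra T a ^ 2 ∧
  (∫ x in (0 : ℝ)..(30 * ra T a), ∫ y in (-(30 * ra T a))..(30 * ra T a),
    ‖riemannZeta (1 / 2 + x + (t0 + y) * I) * mT θ T (1 / 2 + ra T a + t0 * I)‖ ^ 2) ≤
      Real.exp (ε * a) * ra T a ^ 2

/-- Few points are bad. -/
def SC1 : Prop := ∀ η ε : ℝ, 0 < η → 0 < ε → ∃ θ c C a0 T0 : ℝ, 0 < θ ∧ θ ≤ 1 / 200 ∧ 0 < c ∧ 0 < C ∧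
  1 ≤ a0 ∧ 2 ≤ T0 ∧ ∀ T a : ℝ, T0 ≤ T → a0 ≤ a → a ≤ Real.log T / 200 →
  volume {t0 : ℝ | T / 2 ≤ t0 ∧ t0 ≤ 3 * T ∧ ¬ Gd θ η ε T a t0} ≤
    ENNReal.ofReal (C * T * Real.exp (-(c * a)))

/-- The normalised local situation at scale `a`: `F z = XX (i t0 + r z)`. -/
structure NN (a η : ℝ) (F : ℂ → ℂ) : Prop where
  diff : Differentiable ℂ F
  symm : ∀ z : ℂ, F (-((starRingEnd ℂ) z)) = (starRingEnd ℂ) (F z)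
  far : ∀ z : ℂ, 1 / 1000 ≤ z.re → ‖z‖ ≤ 20 → F z ≠ 0 ∧ ‖logDeriv F z - a‖ ≤ η * a
  near : ∀ z : ℂ, |z.re| ≤ 1 / 1000 → ‖z‖ ≤ 20 → ‖F z‖ ≤ ‖F 1‖ * Real.exp (-(9 / 10 * a))

/-- Mean value inequality on a square. -/
def SSq : Prop := ∃ C : ℝ, 0 < C ∧ ∀ (g : ℂ → ℂ) (x0 y0 ρ : ℝ), 0 < ρ →
  (∀ z : ℂ, |z.re - x0| ≤ ρ → |z.im - y0| ≤ ρ → DifferentiableAt ℂ g z) →
  ‖g (x0 + y0 * I)‖ ^ 2 ≤ C / ρ ^ 2 *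
    ∫ x in (x0 - ρ)..(x0 + ρ), ∫ y in (y0 - ρ)..(y0 + ρ), ‖g (x + y * I)‖ ^ 2

/-- Harnack and Borel-Caratheodory. -/
def SHar : Prop := ∃ C : ℝ, 0 < C ∧ ∀ (B : ℝ) (K : ℂ → ℂ), 0 ≤ B →
  (∀ z : ℂ, 1 / 2000 ≤ z.re → z.re ≤ 25 → |z.im| ≤ 25 →
    DifferentiableAt ℂ K z ∧ K z ≠ 0 ∧ ‖K z‖ ≤ Real.exp B * ‖K 1‖) →
  ∀ z : ℂ, 1 / 1000 ≤ z.re → z.re ≤ 21 → |z.im| ≤ 21 → ‖logDeriv K z‖ ≤ C * B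

/-- Good points give the normalised local situation. -/
def SC2 : Prop := ∀ η : ℝ, 0 < η → ∃ η1 ε1 : ℝ, 0 < η1 ∧ 0 < ε1 ∧ ∀ θ : ℝ, 0 < θ → θ ≤ 1 / 200 →
  ∃ a0 T0 : ℝ, ∀ T a t0 : ℝ, T0 ≤ T → a0 ≤ a → a ≤ Real.log T / 200 → T / 2 ≤ t0 → t0 ≤ 3 * T →
  Gd θ η1 ε1 T a t0 → NN a η (fun z => XX (I * t0 + ra T a * z))

/-- Few zeros far from the critical line. -/
def SFar : Prop := ∃ c C T0 : ℝ, 0 < c ∧ 0 < C ∧ 2 ≤ T0 ∧ ∀ T : ℝ, T0 ≤ T →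
  volume {t : ℝ | T / 2 ≤ t ∧ t ≤ 3 * T ∧ ∃ z : ℂ, XX z = 0 ∧ 1 / 50 ≤ |z.re| ∧ |z.im - t| ≤ 1} ≤
    ENNReal.ofReal (C * T ^ (1 - c))

/-! ## D. The local theorem (saddle point) -/

/-- Laplace's method. -/
def SLap : Prop := ∀ κ : ℝ, 0 < κ → κ ≤ 1 / 1000 → ∃ η c C : ℝ, ∃ n0 : ℕ, 0 < η ∧ 0 < c ∧ 0 < C ∧ 1 ≤ n0 ∧
  ∀ n : ℕ, n0 ≤ n → ∀ (p : ℂ) (F : ℂ → ℂ),
  (∀ w ∈ Metric.ball (p + 1) (1 / 2), DifferentiableAt ℂ F w ∧ F w ≠ 0 ∧ ‖logDeriv F w - n‖ ≤ η * n) →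
  ∃ w0 : ℂ, ‖w0 - (p + 1)‖ ≤ κ ∧ logDeriv F w0 * (w0 - p) = n + 1 ∧
    Real.exp (-(κ * n)) * ‖F (p + 1)‖ ≤ ‖F w0 / (w0 - p) ^ (n + 1)‖ ∧
    (∀ y : ℝ, |y| ≤ 1 / 10 → ‖F (w0 + I * y) / (w0 + I * y - p) ^ (n + 1)‖ ≤
      Real.exp (-(n * y ^ 2 / 4)) * ‖F w0 / (w0 - p) ^ (n + 1)‖) ∧
    c / Real.sqrt n * ‖F w0 / (w0 - p) ^ (n + 1)‖ ≤
      ‖∫ y in (-(1 / 10) : ℝ)..(1 / 10), F (w0 + I * y) / (w0 + I * y - p) ^ (n + 1)‖ ∧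
    ∫ y in (-(1 / 10) : ℝ)..(1 / 10), ‖F (w0 + I * y) / (w0 + I * y - p) ^ (n + 1)‖ * |y| ≤
      C / n * ‖F w0 / (w0 - p) ^ (n + 1)‖

/-- Derivatives at a point whose whole neighbourhood is controlled. -/
def SB2L : Prop := ∃ η : ℝ, ∃ n0 : ℕ, 0 < η ∧ 1 ≤ n0 ∧ ∀ (n : ℕ) (p : ℂ) (F : ℂ → ℂ), n0 ≤ n →
  (∀ w ∈ Metric.ball p (3 / 2), DifferentiableAt ℂ F w ∧ F w ≠ 0 ∧ ‖logDeriv F w - n‖ ≤ η * n) →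
  (n.factorial : ℝ) * ‖F p‖ ≤ 2 * ‖iteratedDeriv n F p‖

/-- The same for small `n`. -/
def SB2S : Prop := ∀ n0 : ℕ, ∃ η : ℝ, 0 < η ∧ ∀ (n : ℕ) (p : ℂ) (F : ℂ → ℂ), 1 ≤ n → n ≤ n0 →
  (∀ w ∈ Metric.ball p (3 / 2), DifferentiableAt ℂ F w ∧ F w ≠ 0 ∧ ‖logDeriv F w - n‖ ≤ η * n) →
  (n.factorial : ℝ) * ‖F p‖ ≤ 2 * ‖iteratedDeriv n F p‖

def SB2 : Prop := ∃ η : ℝ, 0 < η ∧ ∀ (n : ℕ) (p : ℂ) (F : ℂ → ℂ), 1 ≤ n →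
  (∀ w ∈ Metric.ball p (3 / 2), DifferentiableAt ℂ F w ∧ F w ≠ 0 ∧ ‖logDeriv F w - n‖ ≤ η * n) →
  (n.factorial : ℝ) * ‖F p‖ ≤ 2 * ‖iteratedDeriv n F p‖

/-- Larger scales: no zeros of the derivative at moderate distance. -/
def SB3 : Prop := ∃ η : ℝ, 0 < η ∧ ∀ (a : ℝ) (n : ℕ) (F : ℂ → ℂ), 1 ≤ n → (n : ℝ) ≤ a → NN a η F →
  ∀ z : ℂ, 2 ≤ |z.re| → |z.re| ≤ 5 → |z.im| ≤ 1 → iteratedDeriv n F z ≠ 0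

/-- Scale `n`, not very near the line. -/
def SB1a : Prop := ∃ η : ℝ, ∃ n0 : ℕ, 0 < η ∧ ∀ (n : ℕ) (F : ℂ → ℂ), n0 ≤ n → NN n η F →
  ∀ z : ℂ, 1 / 100 ≤ |z.re| → |z.re| ≤ 5 → |z.im| ≤ 1 / 100 → iteratedDeriv n F z ≠ 0

/-- The right half of Cauchy's integral over the unit circle, with exponent `m`. -/
noncomputable def hc (F : ℂ → ℂ) (m : ℕ) (z : ℂ) : ℂ :=
  (1 / (2 * Real.pi) : ℂ) * ∫ φ in (-(Real.pi / 2))..(Real.pi / 2),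
    F (cexp (I * φ)) * cexp (I * φ) / (cexp (I * φ) - z) ^ m

/-- Splitting of Cauchy's formula. -/
def SHalf : Prop := ∀ (F : ℂ → ℂ) (n : ℕ) (z : ℂ), Differentiable ℂ F →
  (∀ z : ℂ, F (-((starRingEnd ℂ) z)) = (starRingEnd ℂ) (F z)) → ‖z‖ < 1 →
  iteratedDeriv n F z / (n.factorial : ℂ) =
    hc F (n + 1) z + (-1) ^ n * (starRingEnd ℂ) (hc F (n + 1) (-((starRingEnd ℂ) z))) ∧
  HasDerivAt (fun z => hc F (n + 1) z) ((n + 1) * hc F (n + 2) z) z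

/-- The logarithmic derivative of the right half has positive real part. -/
def SRat : Prop := ∃ η : ℝ, ∃ n0 : ℕ, 0 < η ∧ ∀ (n : ℕ) (F : ℂ → ℂ), n0 ≤ n → NN n η F →
  ∀ z : ℂ, |z.re| ≤ 1 / 100 → |z.im| ≤ 1 / 100 →
    hc F (n + 1) z ≠ 0 ∧ 0 < (hc F (n + 2) z / hc F (n + 1) z).re

/-- Scale `n`, near the line. -/
def SB1b : Prop := ∃ η : ℝ, ∃ n0 : ℕ, 0 < η ∧ ∀ (n : ℕ) (F : ℂ → ℂ), n0 ≤ n → NN n η F →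
  ∀ z : ℂ, |z.re| ≤ 1 / 100 → |z.im| ≤ 1 / 100 → iteratedDeriv n F z = 0 →
    z.re = 0 ∧ iteratedDeriv (n + 1) F z ≠ 0

/-! ## E. Counting -/

/-- The number of zeros at a good point. -/
def SCount : Prop := ∃ η C : ℝ, 0 < η ∧ 0 < C ∧ ∀ (a r t0 : ℝ) (n : ℕ) (f : ℂ → ℂ), 1 ≤ a → (n : ℝ) ≤ a →
  0 < r → Differentiable ℂ f → NN a η (fun z => f (I * t0 + r * z)) → ∀ S : Finset ℂ,
  (∀ s ∈ S, ‖s - I * t0‖ ≤ 6 * r ∧ iteratedDeriv n f s = 0) →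
  ∑ s ∈ S, (analyticOrderNatAt (iteratedDeriv n f) s : ℝ) ≤ C * a

/-- Size of `XX` on large discs. -/
def SXB : Prop := ∀ R : ℝ, ∃ K T0 : ℝ, 1 ≤ T0 ∧ ∀ (t : ℝ) (u : ℂ), T0 ≤ t → ‖u‖ ≤ R →
  ‖XX (I * t + u)‖ ≤ Real.exp (K * Real.log t) * ‖HH (I * t)‖ ∧
  (10 ≤ u.re → XX (I * t + u) ≠ 0 ∧
    Real.exp (-(K * Real.log t)) * ‖HH (I * t)‖ ≤ ‖XX (I * t + u)‖ ∧
    ‖logDeriv XX (I * t + u) - ((Real.log t / 2 : ℝ) : ℂ)‖ ≤ K)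

/-- All zeros of the derivatives lie in the critical strip. -/
def SStrip : Prop := ∀ (n : ℕ) (z : ℂ), iteratedDeriv n XX z = 0 → |z.re| ≤ 1 / 2

/-- Zeros in unit windows. -/
def SUnit : Prop := ∃ C T0 : ℝ, 0 < C ∧ 2 ≤ T0 ∧ ∀ (t : ℝ) (n : ℕ), T0 ≤ t → (n : ℝ) ≤ 60 * Real.log t →
  ∀ S : Finset ℂ, (∀ s ∈ S, |s.im - t| ≤ 1 ∧ iteratedDeriv n XX s = 0) →
  ∑ s ∈ S, (analyticOrderNatAt (iteratedDeriv n XX) s : ℝ) ≤ C * Real.log t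

/-- Bad zeros: off the critical line or multiple. -/
def bad (n : ℕ) (s : ℂ) : Prop :=
  iteratedDeriv n XX s = 0 ∧ (s.re ≠ 0 ∨ iteratedDeriv (n + 1) XX s = 0)

/-- Jensen circles. -/
def SCir : Prop := ∀ (n : ℕ) (w : ℂ), bad (n + 1) w →
  ∃ z : ℂ, bad n z ∧ |w.re| ≤ |z.re| ∧ |w.im - z.im| ≤ |z.re|

/-- Near the height `t` all scales `j0 ≤ j ≤ J` are good. -/
def Loc (η T : ℝ) (n j0 J : ℕ) (t : ℝ) : Prop := ∀ j : ℕ, j0 ≤ j → j ≤ J →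
  ∃ t' : ℝ, |t - t'| ≤ ra T (2 ^ j * n) / 100 ∧
    NN (2 ^ j * n) η (fun z => XX (I * t' + ra T (2 ^ j * n) * z))

/-- No zeros of the `n`-th derivative at distances between `5 r_{j0}` and `5 r_J`. -/
def SPtA : Prop := ∃ η : ℝ, 0 < η ∧ ∀ (T : ℝ) (n J j0 : ℕ) (s : ℂ), 2 ≤ T → 1 ≤ n → j0 ≤ J →
  iteratedDeriv n XX s = 0 → Loc η T n j0 J s.im →
  |s.re| ≤ 5 * ra T (2 ^ j0 * n) ∨ 5 * ra T (2 ^ J * n) < |s.re|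

/-- No bad zeros up to the distance `5 r_J`. -/
def SPtB : Prop := ∃ η : ℝ, ∃ n0 : ℕ, 0 < η ∧ 1 ≤ n0 ∧ ∀ (T : ℝ) (n J : ℕ) (s : ℂ), 2 ≤ T → n0 ≤ n →
  bad n s → Loc η T n 0 J s.im → 5 * ra T (2 ^ J * n) < |s.re|

/-- The low-lying range (this is known: the theorem on the zeros of `ξ^(n)` up to height `exp(n/25)`). -/
def SLowX : Prop := ∃ N : ℕ, ∀ n : ℕ, N ≤ n → ∀ s : ℂ, |s.im| ≤ Real.exp (n / 25) → ¬ bad n s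

/-- The middle range of `n`, in dyadic windows. -/
def SMid : Prop := ∃ c C T0 : ℝ, ∃ n0 : ℕ, 0 < c ∧ 0 < C ∧ 2 ≤ T0 ∧ ∀ (T : ℝ) (n : ℕ), T0 ≤ T → n0 ≤ n →
  (n : ℝ) ≤ Real.log T / 400 → ∀ S : Finset ℂ, (∀ s ∈ S, bad n s ∧ T < s.im ∧ s.im ≤ 2 * T) →
  ∑ s ∈ S, (analyticOrderNatAt (iteratedDeriv n XX) s : ℝ) ≤ C * T * Real.exp (-(c * n)) * Real.log T

/-- All `n`, dyadic windows. -/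
def SDy : Prop := ∃ c C T0 : ℝ, 0 < c ∧ 0 < C ∧ 2 ≤ T0 ∧ ∀ (T : ℝ) (n : ℕ), T0 ≤ T →
  ∀ S : Finset ℂ, (∀ s ∈ S, bad n s ∧ T < s.im ∧ s.im ≤ 2 * T) →
  ∑ s ∈ S, (analyticOrderNatAt (iteratedDeriv n XX) s : ℝ) ≤ C * T * Real.exp (-(c * n)) * Real.log T

/-- The final estimate, for `XX`. -/
def SFin : Prop := ∃ c C : ℝ, 0 < c ∧ 0 < C ∧ ∀ (n : ℕ) (T : ℝ), 2 ≤ T →
  ∀ S : Finset ℂ, (∀ s ∈ S, bad n s ∧ 0 < s.im ∧ s.im ≤ T) →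
  ∑ s ∈ S, (analyticOrderNatAt (iteratedDeriv n XX) s : ℝ) ≤ C * Real.exp (-(c * n)) * T * Real.log T

end Pool.Agent.H24R2.DZ
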