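import Pool.Agent.H24R2.DZ.Spec
import Pool.Agent.H24R2.JP.Arc

set_option autoImplicit false

/-!
# Task HALF: splitting of Cauchy's formula (helper241)
-/

namespace Pool.Agent.H24R2.DZ

open Complex Filter Topology MeasureTheory Set
open Pool.Agent.H24R2.JP (XX HH Om)

namespace HalfAux

/-- the integrand -/
noncomputable def gg (F : ℂ → ℂ) (m : ℕ) (z : ℂ) (φ : ℝ) : ℂ :=
  F (cexp (I * φ)) * cexp (I * φ) / (cexp (I * φ) - z) ^ m

theorem norm_e (φ : ℝ) : ‖cexp (I * φ)‖ = 1 := by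
  rw [mul_comm, norm_exp_ofReal_mul_I]

theorem dist_low (z : ℂ) (φ : ℝ) : 1 - ‖z‖ ≤ ‖cexp (I * φ) - z‖ := by
  have h := norm_sub_norm_le (cexp (I * φ)) z
  rw [norm_e] at h
  exact h

theorem ne0 {z : ℂ} (hz : ‖z‖ < 1) (φ : ℝ) : cexp (I * φ) - z ≠ 0 := by
  intro h
  have h1 := dist_low z φ
  rw [h, norm_zero] at h1
  linarith

theorem cont_gg {F : ℂ → ℂ} (hF : Differentiable ℂ F) (m : ℕ) {z : ℂ} (hz : ‖z‖ < 1) :
    Continuous (gg F m z) := by
  have hF' := hF.continuous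
  unfold gg
  exact Continuous.div (by fun_prop) (by fun_prop) fun φ => pow_ne_zero _ (ne0 hz φ)

theorem hc_eq (F : ℂ → ℂ) (m : ℕ) (z : ℂ) : hc F m z =
    (1 / (2 * Real.pi) : ℂ) * ∫ φ in (-(Real.pi / 2))..(Real.pi / 2), gg F m z φ := rfl

theorem ig_eq (F : ℂ → ℂ) (n : ℕ) (z : ℂ) : JP.ArcAux.ig F n 0 1 z = gg F (n + 1) z := by
  funext θ
  simp [JP.ArcAux.ig, gg]

theorem cauchy {F : ℂ → ℂ} (hF : Differentiable ℂ F) (n : ℕ) {z : ℂ} (hz : ‖z‖ < 1) :
    iteratedDeriv n F z / (n.factorial : ℂ) =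
      (1 / (2 * Real.pi) : ℂ) * ∫ φ in (0 : ℝ)..2 * Real.pi, gg F (n + 1) z φ := by
  have h1 := JP.ArcAux.cauchy_all ((0 : ℝ) : ℂ) z 1 (by simpa using hz) n F hF.differentiableOn
  rw [JP.ArcAux.circ_eq, ig_eq] at h1
  have hfac : (n.factorial : ℂ) ≠ 0 := by exact_mod_cast n.factorial_ne_zero
  have hpi : (Real.pi : ℂ) ≠ 0 := by exact_mod_cast Real.pi_ne_zero
  have h4 : I * (∫ φ in (0 : ℝ)..2 * Real.pi, gg F (n + 1) z φ) =
      I * (2 * Real.pi / (n.factorial : ℂ) * iteratedDeriv n F z) := by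
    rw [h1]; ring
  have h5 := mul_left_cancel₀ I_ne_zero h4
  rw [h5]
  field_simp

theorem per (F : ℂ → ℂ) (m : ℕ) (z : ℂ) : Function.Periodic (gg F m z) (2 * Real.pi) := by
  intro φ
  have h : cexp (I * ((φ + 2 * Real.pi : ℝ) : ℂ)) = cexp (I * φ) := by
    push_cast
    rw [mul_add, exp_add, show I * (2 * (Real.pi : ℂ)) = 2 * Real.pi * I by ring,
      exp_two_pi_mul_I, mul_one]
  unfold gg
  rw [h]

theorem split {F : ℂ → ℂ} (hF : Differentiable ℂ F) (m : ℕ) {z : ℂ} (hz : ‖z‖ < 1) :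
    ∫ φ in (0 : ℝ)..2 * Real.pi, gg F m z φ =
      (∫ φ in (-(Real.pi / 2))..(Real.pi / 2), gg F m z φ) +
        ∫ φ in (-(Real.pi / 2))..(Real.pi / 2), gg F m z (Real.pi - φ) := by
  have hcg := cont_gg hF m hz
  have h1 := (per F m z).intervalIntegral_add_eq 0 (-(Real.pi / 2))
  rw [zero_add] at h1
  rw [h1, intervalIntegral.integral_comp_sub_left (fun x => gg F m z x),
    show Real.pi - Real.pi / 2 = Real.pi / 2 by ring,
    show Real.pi - -(Real.pi / 2) = -(Real.pi / 2) + 2 * Real.pi by ring]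
  exact (intervalIntegral.integral_add_adjacent_intervals (hcg.intervalIntegrable _ _)
    (hcg.intervalIntegrable _ _)).symm

theorem refl {F : ℂ → ℂ} (hs : ∀ z : ℂ, F (-((starRingEnd ℂ) z)) = (starRingEnd ℂ) (F z)) (n : ℕ)
    (z : ℂ) (φ : ℝ) : gg F (n + 1) z (Real.pi - φ) =
      (-1) ^ n * (starRingEnd ℂ) (gg F (n + 1) (-((starRingEnd ℂ) z)) φ) := by
  have h1 : cexp (I * ((Real.pi - φ : ℝ) : ℂ)) = -((starRingEnd ℂ) (cexp (I * φ))) := by
    rw [← exp_conj, map_mul, conj_I, conj_ofReal]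
    have h : I * ((Real.pi - φ : ℝ) : ℂ) = -I * φ + Real.pi * I := by push_cast; ring
    rw [h, exp_add, exp_pi_mul_I]
    ring
  unfold gg
  rw [h1, hs]
  simp only [map_div₀, map_mul, map_pow, map_sub, map_neg, conj_conj]
  rw [show -((starRingEnd ℂ) (cexp (I * φ))) - z =
    (-1) * ((starRingEnd ℂ) (cexp (I * φ)) - -z) by ring, mul_pow, pow_succ (-1 : ℂ) n]
  generalize ((starRingEnd ℂ) (cexp (I * φ)) - -z) ^ (n + 1) = b
  rcases neg_one_pow_eq_or ℂ n with h | h <;> rw [h] <;> ring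

theorem hasDeriv {F : ℂ → ℂ} (hF : Differentiable ℂ F) (n : ℕ) {z : ℂ} (hz : ‖z‖ < 1) :
    HasDerivAt (fun z => hc F (n + 1) z) ((n + 1) * hc F (n + 2) z) z := by
  set ρ : ℝ := (1 - ‖z‖) / 2 with hρ
  have hρ0 : 0 < ρ := by rw [hρ]; linarith
  have hball : ∀ x ∈ Metric.ball z ρ, ‖x‖ < 1 ∧ ρ ≤ 1 - ‖x‖ := by
    intro x hx
    rw [Metric.mem_ball, dist_eq_norm] at hx
    have h1 : ‖x‖ ≤ ‖x - z‖ + ‖z‖ := by
      have := norm_add_le (x - z) z
      rwa [sub_add_cancel] at this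
    constructor <;> · rw [hρ] at *; linarith
  have hd : ∀ (x : ℂ), ‖x‖ < 1 → ∀ t : ℝ,
      HasDerivAt (fun x => gg F (n + 1) x t) ((n + 1) * gg F (n + 2) x t) x := by
    intro x hx t
    have hne := ne0 hx t
    have h1 : HasDerivAt (fun x : ℂ => cexp (I * t) - x) (-1) x := by
      simpa using (hasDerivAt_id x).const_sub (cexp (I * t))
    have h2 := (h1.pow (n + 1)).inv (pow_ne_zero _ hne)
    have h3 := h2.const_mul (F (cexp (I * t)) * cexp (I * t))
    have h4 : (fun x => gg F (n + 1) x t) = fun y =>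
        F (cexp (I * t)) * cexp (I * t) * ((fun x : ℂ => cexp (I * t) - x) ^ (n + 1))⁻¹ y := by
      funext y
      simp only [gg, Pi.inv_apply, Pi.pow_apply, div_eq_mul_inv]
    rw [h4]
    refine h3.congr_deriv ?_
    simp only [gg, Nat.add_sub_cancel, Pi.pow_apply]
    have hne2 : (cexp (I * t) - x) ^ n ≠ 0 := pow_ne_zero _ hne
    rw [show n + 2 = n + 1 + 1 by ring, pow_succ _ (n + 1), pow_succ _ n]
    push_cast
    field_simp
  have hmain := intervalIntegral.hasDerivAt_integral_of_dominated_loc_of_deriv_le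
    (μ := volume) (a := -(Real.pi / 2)) (b := Real.pi / 2) (F := fun x t => gg F (n + 1) x t)
    (F' := fun x t => (n + 1) * gg F (n + 2) x t) (x₀ := z) (s := Metric.ball z ρ)
    (bound := fun t => (n + 1) * (‖F (cexp (I * t))‖ / ρ ^ (n + 2)))
    (Metric.ball_mem_nhds z hρ0) ?_ ?_ ?_ ?_ ?_ ?_
  · have h := hmain.2.const_mul (1 / (2 * Real.pi) : ℂ)
    rw [intervalIntegral.integral_const_mul] at h
    have h' : HasDerivAt (fun z => hc F (n + 1) z) _ z := h
    refine h'.congr_deriv ?_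
    rw [hc_eq]
    ring
  · filter_upwards [Metric.ball_mem_nhds z hρ0] with x hx
    exact (cont_gg hF (n + 1) (hball x hx).1).aestronglyMeasurable
  · exact (cont_gg hF (n + 1) hz).intervalIntegrable _ _
  · exact (continuous_const.mul (cont_gg hF (n + 2) hz)).aestronglyMeasurable
  · refine Eventually.of_forall fun t _ x hx => ?_
    obtain ⟨h1, h2⟩ := hball x hx
    have h3 := dist_low x t
    have h4 : ‖((n : ℂ) + 1)‖ = (n : ℝ) + 1 := by
      rw [← Nat.cast_succ, Complex.norm_natCast, Nat.cast_succ]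
    rw [norm_mul, h4]
    refine mul_le_mul_of_nonneg_left ?_ (by positivity)
    simp only [gg]
    rw [norm_div, norm_mul, norm_e, mul_one, norm_pow]
    refine div_le_div_of_nonneg_left (norm_nonneg _) (by positivity) ?_
    exact pow_le_pow_left₀ hρ0.le (h2.trans h3) _
  · have hF' := hF.continuous
    exact Continuous.intervalIntegrable (by fun_prop) _ _
  · exact Eventually.of_forall fun t _ x hx => hd x (hball x hx).1 t

end HalfAux

open HalfAux in
theorem half : SHalf := by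
  intro F n z hF hs hz
  refine ⟨?_, hasDeriv hF n hz⟩
  have hcc : (starRingEnd ℂ) (1 / (2 * Real.pi) : ℂ) = (1 / (2 * Real.pi) : ℂ) := by
    rw [map_div₀, map_mul, conj_ofReal, map_one, map_ofNat]
  rw [cauchy hF n hz, split hF _ hz, mul_add, ← hc_eq]
  congr 1
  rw [hc_eq, map_mul, hcc, ← intervalIntegral.intervalIntegral_conj]
  have h1 : (∫ φ in (-(Real.pi / 2))..(Real.pi / 2), gg F (n + 1) z (Real.pi - φ)) =
      (-1) ^ n * ∫ φ in (-(Real.pi / 2))..(Real.pi / 2),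
        (starRingEnd ℂ) (gg F (n + 1) (-((starRingEnd ℂ) z)) φ) := by
    rw [← intervalIntegral.integral_const_mul]
    exact intervalIntegral.integral_congr fun φ _ => refl hs n z φ
  rw [h1]
  ring

end Pool.Agent.H24R2.DZ
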