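import Pool.Agent.H24R2.DZ.Spec
import Pool.Agent.H24R2.JP.All2

set_option autoImplicit false

/-!
# The low-lying range (helper602)
-/

namespace Pool.Agent.H24R2.DZ

open Complex
open Pool.Agent.H24R2.JP (XX xi xiT)

theorem lowX : SLowX := by
  obtain ⟨N, hN⟩ := xiT
  refine ⟨N, fun n hn s hs hb => ?_⟩
  obtain ⟨h0, h1⟩ := hb
  have e : s + 1 / 2 - 1 / 2 = s := by ring
  have hi : iteratedDeriv n xi (s + 1 / 2) = 0 := by
    rw [Pool.Agent.H24R2.JP.XiFin.iter_xi, e, h0, mul_zero]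
  have him : (s + 1 / 2).im = s.im := by
    rw [Complex.add_im]
    norm_num
  have hre : (s + 1 / 2).re = s.re + 1 / 2 := by
    rw [Complex.add_re]
    norm_num
  obtain ⟨h2, h3⟩ := hN n hn (s + 1 / 2) hi (by rw [him]; exact hs)
  rw [Pool.Agent.H24R2.JP.XiFin.iter_xi, e] at h3
  rcases h1 with h | h
  · exact h (by linarith)
  · exact h3 (by rw [h, mul_zero])

end Pool.Agent.H24R2.DZ
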