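import Pool.Agent.H24R2.DZ.Spec
import Pool.Agent.H24R2.JP.All
import Pool.Agent.H24R2.JP.OpGood
import Pool.Agent.H24R2.JP.ItGood
import Pool.Agent.H24R2.JP.XDer

set_option autoImplicit false

/-!
# All zeros of the derivatives of `XX` lie in the critical strip
-/

namespace Pool.Agent.H24R2.DZ

open Complex Filter Topology MeasureTheory Set
open Pool.Agent.H24R2.JP

namespace StripAux

theorem good_TI (b : ℝ) (hb : 0 < b) : ∀ (m : ℕ) (f : ℂ → ℂ), Good f → Good (TI b m f) := by
  intro m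
  induction m with
  | zero => intro f hf; exact hf
  | succ m ih =>
    intro f hf
    exact ih _ (opGood der f (b + m) hf (by positivity))

theorem re_le {z : ℂ} (h : z ^ 2 ∈ Par) : |z.re| ≤ 1 / 2 := by
  have h1 : (z ^ 2).re + (z ^ 2).im ^ 2 ≤ 1 / 4 := h
  have e1 : (z ^ 2).re = z.re ^ 2 - z.im ^ 2 := by
    rw [_root_.sq, Complex.mul_re]; ring
  have e2 : (z ^ 2).im = 2 * z.re * z.im := by
    rw [_root_.sq, Complex.mul_im]; ring
  rw [e1, e2] at h1
  have h2 : (z.re ^ 2 - 1 / 4) * (4 * z.im ^ 2 + 1) ≤ 0 := by nlinarith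
  have h3 : z.re ^ 2 ≤ (1 / 2) ^ 2 := by
    by_contra hc
    push Not at hc
    have h4 : 0 < (z.re ^ 2 - 1 / 4) * (4 * z.im ^ 2 + 1) := by
      apply mul_pos
      · linarith
      · positivity
    linarith
  exact abs_le_of_sq_le_sq h3 (by norm_num)

end StripAux

open StripAux

theorem strip : SStrip := by
  intro n z hz
  have hx := xder b1
  have hg : ∀ k, Good (iteratedDeriv k FF) := fun k => itGood der gl FF k goodT
  have hpar : ∀ (g : ℂ → ℂ), Good g → ∀ w, g w = 0 → w ∈ Par := by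
    intro g hgg w hw
    exact parT g hgg 0 w (by rw [iteratedDeriv_zero]; exact hw)
  rcases Nat.even_or_odd' n with ⟨m, rfl | rfl⟩
  · rw [(hx m z).1] at hz
    have h4 : (4 : ℂ) ^ m ≠ 0 := pow_ne_zero _ (by norm_num)
    have h5 := (mul_eq_zero.mp hz).resolve_left h4
    exact re_le (hpar _ (good_TI (1 / 2) (by norm_num) m _ (hg m)) _ h5)
  · rw [(hx m z).2] at hz
    have h4 : (2 : ℂ) * 4 ^ m ≠ 0 := mul_ne_zero (by norm_num) (pow_ne_zero _ (by norm_num))
    rcases mul_eq_zero.mp hz with h5 | h5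
    · have h6 := (mul_eq_zero.mp h5).resolve_left h4
      rw [h6]
      simp
    · exact re_le (hpar _ (good_TI (3 / 2) (by norm_num) m _ (hg (m + 1))) _ h5)

end Pool.Agent.H24R2.DZ
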