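import Pool.Agent.H24R2.DZ.Spec
import Pool.Agent.H24R2.JP.Stir
import Pool.Agent.H24R2.JP.Zeta
import Pool.Agent.H24R2.JP.B1

set_option autoImplicit false

namespace Pool.Agent.H24R2.DZ

open Complex Filter Topology MeasureTheory Set
open Pool.Agent.H24R2.JP (XX HH Om)
open Pool.Agent.H24R2.JP.StirAux

namespace XBAux

/-- one-sided bound from a bounded logarithmic derivative along a segment -/
lemma seg (p d : ℂ) (κ : ℝ) (hκ : 0 < κ)
    (h : ∀ x ∈ Icc (0 : ℝ) 1, 0 < (p + x * d).im ∧ ‖logDeriv HH (p + x * d)‖ * ‖d‖ ≤ κ) :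
    ‖HH (p + d)‖ ≤ Real.exp κ * ‖HH p‖ := by
  have key := SG.GamAux.gron (fun x : ℝ => HH (p + x * d))
    (fun x : ℝ => HH (p + x * d) * ld (p + x * d) * d) κ hκ ?_ ?_
  · have := key.1
    simpa using this
  · intro x hx
    have hlin : HasDerivAt (fun x : ℝ => p + (x : ℂ) * d) d x := by
      have h0 : HasDerivAt (fun x : ℝ => (x : ℂ)) 1 x := Complex.ofRealCLM.hasDerivAt
      simpa using (h0.mul_const d).const_add p
    exact HasDerivAt.comp x (HH_deriv (h x hx).1) hlin
  · intro x hx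
    obtain ⟨h1, h2⟩ := h x hx
    rw [← ld_eq h1, norm_mul, norm_mul, mul_assoc, mul_comm]
    gcongr

lemma hhb : ∃ K : ℝ, 1 ≤ K ∧ ∀ (R t : ℝ) (u : ℂ), 1 ≤ R → 400 ≤ t → 4 * R ≤ t → ‖u‖ ≤ R →
    0 < (I * t + u).im ∧ ‖HH (I * t + u)‖ ≤ Real.exp (K * R * Real.log t) * ‖HH (I * t)‖ ∧
    ‖HH (I * t)‖ ≤ Real.exp (K * R * Real.log t) * ‖HH (I * t + u)‖ ∧
    ‖logDeriv HH (I * t + u) - (Om t : ℂ)‖ ≤ K := by
  obtain ⟨K, hK, h⟩ := bound1
  refine ⟨K + 1, by linarith, ?_⟩
  intro R t u hR ht hRt hu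
  have ht0 : 0 < t := by linarith
  have hlog : 1 ≤ Real.log t := by
    rw [Real.le_log_iff_exp_le ht0]
    have := Real.exp_one_lt_d9
    linarith
  have hin : ∀ v : ℂ, ‖v‖ ≤ R → 0 < (I * t + v).im ∧ ‖logDeriv HH (I * t + v) - (Om t : ℂ)‖ ≤ K := by
    intro v hv
    refine h t (I * t + v) ht ?_
    rw [add_sub_cancel_left]
    linarith
  have hOm : ‖(Om t : ℂ)‖ = Real.log t / 2 := by
    rw [Complex.norm_real, Real.norm_eq_abs, Om, abs_of_nonneg (by linarith)]
  have hl : ∀ v : ℂ, ‖v‖ ≤ R → ‖logDeriv HH (I * t + v)‖ ≤ (K + 1) * Real.log t := by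
    intro v hv
    have h1 := (hin v hv).2
    have h2 : ‖logDeriv HH (I * t + v)‖ ≤ ‖logDeriv HH (I * t + v) - (Om t : ℂ)‖ + ‖(Om t : ℂ)‖ := by
      have := norm_add_le (logDeriv HH (I * t + v) - (Om t : ℂ)) (Om t : ℂ)
      rwa [sub_add_cancel] at this
    rw [hOm] at h2
    nlinarith
  have hκ : 0 < (K + 1) * R * Real.log t := by positivity
  have hn1 : ∀ x ∈ Icc (0 : ℝ) 1, ‖(x : ℂ) * u‖ ≤ R := by
    intro x hx
    rw [norm_mul, Complex.norm_real, Real.norm_eq_abs, abs_of_nonneg hx.1]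
    nlinarith [hx.2, norm_nonneg u]
  have hn2 : ∀ x ∈ Icc (0 : ℝ) 1, ‖u + (x : ℂ) * (-u)‖ ≤ R := by
    intro x hx
    have := hn1 (1 - x) ⟨by linarith [hx.2], by linarith [hx.1]⟩
    have e : ((1 - x : ℝ) : ℂ) * u = u + (x : ℂ) * (-u) := by push_cast; ring
    rwa [e] at this
  refine ⟨(hin u hu).1, ?_, ?_, (hin u hu).2.trans (by linarith)⟩
  · refine seg (I * t) u _ hκ ?_
    intro x hx
    refine ⟨(hin _ (hn1 x hx)).1, ?_⟩
    have h1 := hl _ (hn1 x hx)
    calc ‖logDeriv HH (I * t + x * u)‖ * ‖u‖ ≤ ((K + 1) * Real.log t) * R := by gcongr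
      _ = _ := by ring
  · have := seg (I * t + u) (-u) _ hκ ?_
    · rwa [add_neg_cancel_right] at this
    · intro x hx
      have e : I * t + u + x * (-u) = I * t + (u + x * (-u)) := by ring
      rw [e]
      refine ⟨(hin _ (hn2 x hx)).1, ?_⟩
      have h1 := hl _ (hn2 x hx)
      rw [norm_neg]
      calc ‖logDeriv HH (I * t + (u + x * (-u)))‖ * ‖u‖ ≤ ((K + 1) * Real.log t) * R := by gcongr
        _ = _ := by ring

lemma z1 {s : ℂ} (hs : 3 ≤ s.re) : ‖riemannZeta s - 1‖ ≤ 1 / 2 := by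
  have hs1 : 1 < s.re := by linarith
  rw [zeta_eq_tsum_one_div_nat_add_one_cpow hs1]
  have hsum : Summable (fun n : ℕ => 1 / ((n : ℂ) + 1) ^ s) := by
    have := (Complex.summable_one_div_nat_cpow (p := s)).2 hs1
    have h2 := (summable_nat_add_iff 1).2 this
    refine h2.congr ?_
    intro n
    push_cast
    rfl
  rw [hsum.tsum_eq_zero_add]
  have e0 : (1 / (((0 : ℕ) : ℂ) + 1) ^ s) = 1 := by simp
  rw [e0, add_sub_cancel_left]
  have hT : HasSum (fun n : ℕ => (1 / 2 : ℝ) * (1 / ((n : ℝ) + 1) - 1 / ((n : ℝ) + 2))) (1 / 2) := by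
    have h1 : HasSum (fun n : ℕ => (1 / ((n : ℝ) + 1) - 1 / ((n : ℝ) + 2))) 1 := by
      rw [hasSum_iff_tendsto_nat_of_nonneg]
      · have e : ∀ N : ℕ, ∑ i ∈ Finset.range N, (1 / ((i : ℝ) + 1) - 1 / ((i : ℝ) + 2)) =
            1 - 1 / ((N : ℝ) + 1) := by
          intro N
          have h0 := Finset.sum_range_sub' (fun i : ℕ => 1 / ((i : ℝ) + 1)) N
          simp only [Nat.cast_zero, zero_add, div_one] at h0
          rw [← h0]
          refine Finset.sum_congr rfl fun i _ => ?_
          push_cast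
          ring_nf
        simp_rw [e]
        have := (tendsto_one_div_add_atTop_nhds_zero_nat (𝕜 := ℝ)).const_sub 1
        simpa using this
      · intro i
        have : 1 / ((i : ℝ) + 2) ≤ 1 / ((i : ℝ) + 1) := by
          apply one_div_le_one_div_of_le (by positivity)
          linarith
        linarith
    simpa using h1.mul_left (1 / 2 : ℝ)
  refine tsum_of_norm_bounded hT ?_
  intro n
  rw [norm_div, norm_one]
  have hn : ‖(((n + 1 : ℕ) : ℂ) + 1) ^ s‖ = ((n : ℝ) + 2) ^ s.re := by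
    have h0 : (0 : ℝ) < (n : ℝ) + 2 := by positivity
    have := Complex.norm_cpow_eq_rpow_re_of_pos h0 s
    rw [← this]
    push_cast
    ring_nf
  rw [hn]
  have h0 : (1 : ℝ) ≤ (n : ℝ) + 2 := by
    have : (0 : ℝ) ≤ n := Nat.cast_nonneg n
    linarith
  have h1 : ((n : ℝ) + 2) ^ (3 : ℕ) ≤ ((n : ℝ) + 2) ^ s.re := by
    rw [← Real.rpow_natCast]
    exact Real.rpow_le_rpow_of_exponent_le h0 (by push_cast; exact hs)
  have h2 : (0 : ℝ) ≤ n := Nat.cast_nonneg n
  have h3 : 1 / ((n : ℝ) + 1) - 1 / ((n : ℝ) + 2) = 1 / (((n : ℝ) + 1) * ((n : ℝ) + 2)) := by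
    field_simp
    ring
  rw [h3, show (1 / 2 : ℝ) * (1 / (((n : ℝ) + 1) * ((n : ℝ) + 2))) =
    1 / (2 * (((n : ℝ) + 1) * ((n : ℝ) + 2))) by field_simp]
  apply one_div_le_one_div_of_le (by positivity)
  refine le_trans ?_ h1
  have e5 : ((n : ℝ) + 2) ^ (3 : ℕ) - 2 * (((n : ℝ) + 1) * ((n : ℝ) + 2)) =
    ((n : ℝ) + 2) * ((n : ℝ) ^ 2 + 2 * n + 2) := by ring
  have e6 : 0 ≤ ((n : ℝ) + 2) * ((n : ℝ) ^ 2 + 2 * n + 2) := by positivity
  linarith

lemma z2 {s : ℂ} (hs : 4 ≤ s.re) : 1 / 2 ≤ ‖riemannZeta s‖ ∧ ‖logDeriv riemannZeta s‖ ≤ 1 := by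
  have h1 := z1 (s := s) (by linarith)
  have h2 : 1 / 2 ≤ ‖riemannZeta s‖ := by
    have := norm_sub_norm_le (1 : ℂ) (1 - riemannZeta s)
    rw [sub_sub_cancel, norm_one, norm_sub_rev] at this
    linarith
  refine ⟨h2, ?_⟩
  have h3 : ‖deriv riemannZeta s‖ ≤ 1 / 2 := by
    have e : deriv riemannZeta s = deriv (fun w => riemannZeta w - 1) s := by rw [deriv_sub_const]
    rw [e]
    have := Complex.norm_deriv_le_of_forall_mem_sphere_norm_le (f := fun w => riemannZeta w - 1)
      (c := s) (R := 1) (C := 1 / 2) one_pos ?_ ?_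
    · simpa using this
    · have hd : ∀ w ∈ Metric.closedBall s 1, DifferentiableAt ℂ (fun w => riemannZeta w - 1) w := by
        intro w hw
        refine (differentiableAt_riemannZeta ?_).sub_const _
        rintro rfl
        rw [Metric.mem_closedBall, dist_eq_norm] at hw
        have := (Complex.abs_re_le_norm (1 - s)).trans hw
        rw [Complex.sub_re, Complex.one_re, abs_le] at this
        linarith [this.1]
      constructor
      · intro w hw
        exact (hd w (Metric.ball_subset_closedBall hw)).differentiableWithinAt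
      · rw [closure_ball _ one_ne_zero]
        intro w hw
        exact (hd w hw).continuousAt.continuousWithinAt
    · intro w hw
      apply z1
      rw [mem_sphere_iff_norm] at hw
      have := (Complex.abs_re_le_norm (w - s)).trans hw.le
      rw [Complex.sub_re, abs_le] at this
      linarith [this.1]
  rw [logDeriv_apply, norm_div, div_le_one (by linarith)]
  linarith

lemma xsymm (z : ℂ) : XX (-((starRingEnd ℂ) z)) = (starRingEnd ℂ) (XX z) := by
  obtain ⟨-, h1, h2, -⟩ := Pool.Agent.H24R2.JP.b1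
  rw [← h1, ← h1, ← h2]
  congr 1
  rw [neg_sq, map_pow]

end XBAux

open XBAux in
theorem xb : SXB := by
  obtain ⟨K1, hK1, hh⟩ := hhb
  obtain ⟨hX, K2, hK2, hz⟩ := Pool.Agent.H24R2.JP.zetaS
  intro R0
  obtain ⟨R, hR⟩ : ∃ R, R = |R0| + 1 := ⟨_, rfl⟩
  have hR1 : 1 ≤ R := by rw [hR]; linarith [abs_nonneg R0]
  have hR0 : R0 ≤ R := by rw [hR]; linarith [le_abs_self R0]
  have hlK : 0 ≤ Real.log (3 * K2) := Real.log_nonneg (by linarith)
  refine ⟨K1 * R + Real.log (3 * K2) + 2 + K1, 400 + 4 * R, by linarith, ?_⟩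
  intro t u ht hu0
  have hu : ‖u‖ ≤ R := hu0.trans hR0
  have ht4 : 400 ≤ t := by linarith
  have ht0 : 0 < t := by linarith
  have hlog : 1 ≤ Real.log t := by
    rw [Real.le_log_iff_exp_le ht0]
    have := Real.exp_one_lt_d9
    linarith
  have hHn : 0 ≤ ‖HH (I * t)‖ := norm_nonneg _
  -- the upper bound in the right half plane
  have hup : ∀ v : ℂ, ‖v‖ ≤ R → 0 ≤ v.re → ‖XX (I * t + v)‖ ≤
      Real.exp ((K1 * R + Real.log (3 * K2) + 2 + K1) * Real.log t) * ‖HH (I * t)‖ := by
    intro v hv hvr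
    obtain ⟨h1, h2, -, -⟩ := hh R t v hR1 ht4 (by linarith) hv
    have him := Complex.abs_im_le_norm v
    have him2 := abs_le.1 (him.trans hv)
    rw [hX _ h1, norm_mul]
    have h3 : ‖riemannZeta (1 / 2 + (I * t + v))‖ ≤ 3 * K2 * t := by
      have h4 := hz (1 / 2 + (I * t + v)) 1 (by simp; linarith) (by simp; linarith) le_rfl
      simp only [Finset.Icc_self, Finset.sum_singleton, Nat.cast_one, Complex.one_cpow,
        Real.one_rpow, mul_one] at h4
      have h5 : ‖(1 / 2 + (I * t + v) : ℂ)‖ ≤ 1 / 2 + (t + R) := by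
        refine (norm_add_le _ _).trans ?_
        refine add_le_add (by norm_num) ((norm_add_le _ _).trans ?_)
        refine add_le_add ?_ hv
        rw [norm_mul, Complex.norm_I, one_mul, Complex.norm_real, Real.norm_eq_abs, abs_of_pos ht0]
      have h6 := norm_sub_norm_le (riemannZeta (1 / 2 + (I * t + v))) 1
      rw [norm_one] at h6
      have h7 : K2 * ‖(1 / 2 + (I * t + v) : ℂ)‖ ≤ K2 * (2 * t) := by
        apply mul_le_mul_of_nonneg_left _ (by linarith)
        linarith
      have h8 : 1 ≤ K2 * t := by nlinarith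
      linarith
    have h4 : 3 * K2 * t ≤ Real.exp ((Real.log (3 * K2) + 1) * Real.log t) := by
      have : Real.log (3 * K2 * t) ≤ (Real.log (3 * K2) + 1) * Real.log t := by
        rw [Real.log_mul (by positivity) ht0.ne']
        nlinarith
      calc 3 * K2 * t = Real.exp (Real.log (3 * K2 * t)) := (Real.exp_log (by positivity)).symm
        _ ≤ _ := Real.exp_le_exp.2 this
    calc ‖HH (I * t + v)‖ * ‖riemannZeta (1 / 2 + (I * t + v))‖
        ≤ (Real.exp (K1 * R * Real.log t) * ‖HH (I * t)‖) *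
          Real.exp ((Real.log (3 * K2) + 1) * Real.log t) := by
          gcongr
          exact h3.trans h4
      _ = Real.exp (K1 * R * Real.log t + (Real.log (3 * K2) + 1) * Real.log t) * ‖HH (I * t)‖ := by
          rw [Real.exp_add]; ring
      _ ≤ _ := by
          gcongr
          nlinarith
  refine ⟨?_, ?_⟩
  · rcases le_or_gt 0 u.re with h | h
    · exact hup u hu h
    · have h1 := hup (-((starRingEnd ℂ) u)) (by rw [norm_neg, RCLike.norm_conj]; exact hu)
        (by simp; linarith)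
      have e : I * t + -((starRingEnd ℂ) u) = -((starRingEnd ℂ) (I * t + u)) := by
        rw [map_add, map_mul, Complex.conj_I, Complex.conj_ofReal]
        ring
      rw [e, xsymm, RCLike.norm_conj] at h1
      exact h1
  · intro hu10
    obtain ⟨h1, h2, h3, h4⟩ := hh R t u hR1 ht4 (by linarith) hu
    have hre : 4 ≤ (1 / 2 + (I * t + u)).re := by simp; linarith
    obtain ⟨z3, z4⟩ := z2 hre
    have hne : XX (I * t + u) ≠ 0 := by
      rw [hX _ h1]
      refine mul_ne_zero (HH_ne h1) ?_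
      rw [← norm_pos_iff]
      linarith
    refine ⟨hne, ?_, ?_⟩
    · rw [hX _ h1, norm_mul]
      have h5 : ‖HH (I * t)‖ * Real.exp (-(K1 * R * Real.log t)) ≤ ‖HH (I * t + u)‖ := by
        rw [Real.exp_neg, ← div_eq_mul_inv, div_le_iff₀ (Real.exp_pos _)]
        linarith [mul_comm (Real.exp (K1 * R * Real.log t)) ‖HH (I * t + u)‖]
      have h6 : Real.exp (-(1 * Real.log t)) ≤ 1 / 2 := by
        have : Real.exp (-(1 * Real.log t)) ≤ Real.exp (-1) := Real.exp_le_exp.2 (by linarith)
        have h7 : Real.exp (-1) ≤ 1 / 2 := by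
          rw [Real.exp_neg, ← one_div]
          apply one_div_le_one_div_of_le (by norm_num)
          have := Real.add_one_le_exp (1 : ℝ)
          linarith
        linarith
      calc Real.exp (-((K1 * R + Real.log (3 * K2) + 2 + K1) * Real.log t)) * ‖HH (I * t)‖
          ≤ Real.exp (-(K1 * R * Real.log t) + -(1 * Real.log t)) * ‖HH (I * t)‖ := by
            gcongr
            nlinarith
        _ = (‖HH (I * t)‖ * Real.exp (-(K1 * R * Real.log t))) * Real.exp (-(1 * Real.log t)) := by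
            rw [Real.exp_add]; ring
        _ ≤ ‖HH (I * t + u)‖ * (1 / 2) := by gcongr
        _ ≤ _ := by gcongr
    · have hζd : DifferentiableAt ℂ riemannZeta (1 / 2 + (I * t + u)) := by
        apply differentiableAt_riemannZeta
        intro h
        rw [h] at hre
        norm_num at hre
      have hcomp : HasDerivAt (fun z : ℂ => riemannZeta (1 / 2 + z))
          (deriv riemannZeta (1 / 2 + (I * t + u))) (I * t + u) := by
        have h0 : HasDerivAt (fun z : ℂ => 1 / 2 + z) 1 (I * t + u) := (hasDerivAt_id _).const_add _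
        have := HasDerivAt.comp (I * t + u) hζd.hasDerivAt h0
        rwa [mul_one] at this
      have hev : XX =ᶠ[𝓝 (I * t + u)] fun z => HH z * riemannZeta (1 / 2 + z) := by
        filter_upwards [upper_open.mem_nhds h1] with z hz'
        exact hX z hz'
      have e : logDeriv XX (I * t + u) = logDeriv HH (I * t + u) +
          logDeriv riemannZeta (1 / 2 + (I * t + u)) := by
        rw [logDeriv_apply, hev.deriv_eq, hev.eq_of_nhds]
        have h5 := ((HH_diff h1).hasDerivAt.mul hcomp).deriv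
        have e2 : (HH * fun z : ℂ => riemannZeta (1 / 2 + z)) =
          fun z => HH z * riemannZeta (1 / 2 + z) := rfl
        rw [e2] at h5
        rw [h5, logDeriv_apply, logDeriv_apply]
        have n1 := HH_ne h1
        have n2 : riemannZeta (1 / 2 + (I * t + u)) ≠ 0 := by
          rw [← norm_pos_iff]
          linarith
        generalize deriv riemannZeta (1 / 2 + (I * t + u)) = a at *
        generalize riemannZeta (1 / 2 + (I * t + u)) = b at *
        generalize deriv HH (I * t + u) = c at *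
        generalize HH (I * t + u) = d at *
        field_simp
      rw [e]
      have e3 : logDeriv HH (I * t + u) + logDeriv riemannZeta (1 / 2 + (I * t + u)) -
          ((Real.log t / 2 : ℝ) : ℂ) = (logDeriv HH (I * t + u) - (Om t : ℂ)) +
          logDeriv riemannZeta (1 / 2 + (I * t + u)) := by
        unfold Om
        ring
      rw [e3]
      refine (norm_add_le _ _).trans ?_
      have : 0 ≤ K1 * R := by positivity
      linarith

end Pool.Agent.H24R2.DZ
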